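import Mathlib

set_option autoImplicit false

namespace Pool.Agent.H.MP_d7a7a6_al

/-- First letters of the substitution. -/
def p : Fin 8 → Fin 8 := ![0, 0, 3, 3, 2, 1, 2, 1]

/-- Second letters of the substitution. -/
def q : Fin 8 → Fin 8 := ![4, 7, 4, 7, 5, 6, 6, 5]

/-- Position class modulo four. -/
def cls : Fin 8 → Fin 4 := ![0, 2, 2, 0, 1, 3, 3, 1]

/-- The fixed point of the substitution. -/
def x (n : ℕ) : Fin 8 :=
  if h : n = 0 then 0 else if n % 2 = 0 then p (x (n / 2)) else q (x (n / 2))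
decreasing_by all_goals omega

theorem x_zero : x 0 = 0 := by rw [x]; rfl

theorem x_even (i : ℕ) : x (2 * i) = p (x i) := by
  rcases Nat.eq_zero_or_pos i with rfl | hi
  · rw [mul_zero, x_zero]; rfl
  · rw [x, dif_neg (by omega), if_pos (by omega)]
    congr 2; omega

theorem x_odd (i : ℕ) : x (2 * i + 1) = q (x i) := by
  rw [x, dif_neg (by omega), if_neg (by omega)]
  congr 2; omega

theorem pq_inj : ∀ a b, p a = p b → q a = q b → a = b := by decide

theorem cls_pq : ∀ c, cls (q c) = cls (p c) + 1 := by decide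

theorem cls_qp : ∀ b c, cls c = cls b + 1 → cls (p c) = cls (q b) + 1 := by decide

theorem cls_not : ∀ c, cls (p c) ≠ cls (q c) + 1 := by decide

theorem p_lt : ∀ c, (p c).val < 4 := by decide

theorem q_ge : ∀ c, 4 ≤ (q c).val := by decide

theorem cls_succ (i : ℕ) : cls (x (i + 1)) = cls (x i) + 1 := by
  induction i using Nat.strong_induction_on with
  | _ i ih =>
    rcases Nat.even_or_odd' i with ⟨k, rfl | rfl⟩
    · rw [x_odd, x_even, cls_pq]
    · rw [show 2 * k + 1 + 1 = 2 * (k + 1) by ring, x_even, x_odd]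
      exact cls_qp _ _ (ih k (by omega))

theorem x_lt (j : ℕ) : (x j).val < 4 ↔ j % 2 = 0 := by
  rcases Nat.even_or_odd' j with ⟨k, rfl | rfl⟩
  · have := p_lt (x k); rw [x_even]; omega
  · have := q_ge (x k); rw [x_odd]; omega

theorem no_cyclic (n : ℕ) : 2 ≤ n → ∀ w : ℕ → Fin 8, (∀ i, w (i + n) = w i) →
    (∀ r, ∃ j, ∀ k < n, x (j + k) = w (r + k)) → False := by
  induction n using Nat.strong_induction_on with
  | _ n ih =>
    intro hn w hw hocc
    choose j hj using hocc
    have alt : ∀ r, ((w (r + 1)).val < 4 ↔ ¬ (w r).val < 4) := by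
      intro r
      have h0 := hj r 0 (by omega)
      have h1 := hj r 1 (by omega)
      rw [← h1, show w r = w (r + 0) from rfl, ← h0, x_lt, x_lt]
      omega
    obtain ⟨r0, hr0⟩ : ∃ r0, (w r0).val < 4 := by
      by_cases h : (w 0).val < 4
      · exact ⟨0, h⟩
      · exact ⟨1, (alt 0).2 h⟩
    have par : ∀ k, ((w (r0 + k)).val < 4 ↔ k % 2 = 0) := by
      intro k
      induction k with
      | zero => simpa using hr0
      | succ k ihk => rw [← add_assoc, alt, ihk]; omega
    have hn2 : n % 2 = 0 := (par n).1 (by rw [hw]; exact hr0)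
    obtain ⟨m, rfl⟩ : ∃ m, n = 2 * m := ⟨n / 2, by omega⟩
    have jev : ∀ t, ∃ i, j (r0 + 2 * t) = 2 * i := by
      intro t
      have h0 := hj (r0 + 2 * t) 0 (by omega)
      have := (x_lt _).1 (h0 ▸ (par (2 * t)).2 (by omega))
      exact ⟨j (r0 + 2 * t) / 2, by omega⟩
    choose i hi using jev
    have hp : ∀ t k, k < m → p (x (i t + k)) = w (r0 + 2 * (t + k)) := by
      intro t k hk
      rw [← x_even, show 2 * (i t + k) = j (r0 + 2 * t) + 2 * k by rw [hi]; ring,
        hj _ _ (by omega)]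
      congr 1; ring
    have hq : ∀ t k, k < m → q (x (i t + k)) = w (r0 + 2 * (t + k) + 1) := by
      intro t k hk
      rw [← x_odd, show 2 * (i t + k) + 1 = j (r0 + 2 * t) + (2 * k + 1) by rw [hi]; ring,
        hj _ _ (by omega)]
      congr 1; ring
    have hp0 : ∀ t, p (x (i t)) = w (r0 + 2 * t) := fun t => hp t 0 (by omega)
    have hq0 : ∀ t, q (x (i t)) = w (r0 + 2 * t + 1) := fun t => hq t 0 (by omega)
    by_cases hm : 2 ≤ m
    · refine ih m (by omega) hm (fun t => x (i t)) (fun t => pq_inj _ _ ?_ ?_)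
        fun t => ⟨i t, fun k hk => pq_inj _ _ ?_ ?_⟩
      · rw [hp0, hp0, ← hw (r0 + 2 * t)]; congr 1; ring
      · rw [hq0, hq0, ← hw (r0 + 2 * t + 1)]; congr 1; ring
      · rw [hp t k hk, hp0]
      · rw [hq t k hk, hq0]
    · obtain rfl : m = 1 := by omega
      have h0 := hj (r0 + 1) 0 (by omega)
      have h1 := hj (r0 + 1) 1 (by omega)
      have h2 := cls_succ (j (r0 + 1))
      have e0 : w (r0 + 1 + 0) = q (x (i 0)) := (hq0 0).symm
      have e1 : w (r0 + 1 + 1) = p (x (i 0)) := by
        rw [hp0]; exact hw r0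
      rw [h1, e1, show x (j (r0 + 1)) = x (j (r0 + 1) + 0) from rfl, h0, e0] at h2
      exact cls_not _ h2

/-- The word occurs in `x` at position `i`. -/
def Occ : List (Fin 8) → ℕ → Prop
  | [], _ => True
  | a :: v, i => x i = a ∧ Occ v (i + 1)

theorem occ_iff (w : List (Fin 8)) (i : ℕ) :
    Occ w i ↔ ∀ k (h : k < w.length), x (i + k) = w[k] := by
  induction w generalizing i with
  | nil => simp [Occ]
  | cons a v ih =>
    rw [Occ, ih]
    constructor
    · rintro ⟨h0, h⟩ k hk
      cases k with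
      | zero => exact h0
      | succ k =>
        rw [show i + (k + 1) = i + 1 + k by ring]
        exact h k (by simpa using hk)
    · intro h
      refine ⟨h 0 (by simp), fun k hk => ?_⟩
      rw [show i + 1 + k = i + (k + 1) by ring]
      exact h (k + 1) (by simpa using hk)

theorem exists_rotate (w : List (Fin 8)) (hw : 2 ≤ w.length) :
    ∃ r, ∀ i, ¬ Occ (w.rotate r) i := by
  by_contra h
  push Not at h
  refine no_cyclic w.length hw (fun i => w[i % w.length]'(Nat.mod_lt _ (by omega)))
    (fun i => by simp) fun r => ?_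
  obtain ⟨j, hj⟩ := h r
  refine ⟨j, fun k hk => ?_⟩
  rw [(occ_iff _ _).1 hj k (by simpa using hk), List.getElem_rotate]
  simp only [add_comm k r]

end Pool.Agent.H.MP_d7a7a6_al
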