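import Pool.Agent.H.MP_d7a7a6_al.A

set_option autoImplicit false

namespace Pool.Agent.H.MP_d7a7a6_al

section abstract

variable {U : Type} [Ring U] [Algebra (ZMod 2) U] (e : Fin 8 → U)

/-- The product attached to a word. -/
def P (w : List (Fin 8)) : U := (w.map e).prod

omit [Algebra (ZMod 2) U] in
theorem P_append (v w : List (Fin 8)) : P e (v ++ w) = P e v * P e w := by simp [P]

omit [Algebra (ZMod 2) U] in
theorem P_cons (a : Fin 8) (w : List (Fin 8)) : P e (a :: w) = e a * P e w := by simp [P]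

/-- Span of the words of length at least `n`. -/
def W (n : ℕ) : Submodule (ZMod 2) U := Submodule.span (ZMod 2) {u | ∃ w, n ≤ w.length ∧ P e w = u}

theorem P_mem {n : ℕ} {w : List (Fin 8)} (h : n ≤ w.length) : P e w ∈ W e n :=
  Submodule.subset_span ⟨w, h, rfl⟩

theorem e_mem (a : Fin 8) : e a ∈ W e 1 := by
  have := P_mem e (n := 1) (w := [a]) (by simp)
  simpa [P] using this

theorem W_mono {n m : ℕ} (h : n ≤ m) : W e m ≤ W e n :=
  Submodule.span_mono fun _ ⟨w, hw, hu⟩ => ⟨w, h.trans hw, hu⟩

theorem W_mul {n m : ℕ} {u v : U} (hu : u ∈ W e n) (hv : v ∈ W e m) : u * v ∈ W e (n + m) := by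
  induction hu using Submodule.span_induction with
  | mem u hu =>
    obtain ⟨w, hw, rfl⟩ := hu
    induction hv using Submodule.span_induction with
    | mem v hv =>
      obtain ⟨w', hw', rfl⟩ := hv
      rw [← P_append]
      exact P_mem e (by rw [List.length_append]; omega)
    | zero => rw [mul_zero]; exact zero_mem _
    | add a b _ _ ha hb => rw [mul_add]; exact add_mem ha hb
    | smul c a _ ha => rw [mul_smul_comm]; exact Submodule.smul_mem _ _ ha
  | zero => rw [zero_mul]; exact zero_mem _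
  | add a b _ _ ha hb => rw [add_mul]; exact add_mem ha hb
  | smul c a _ ha => rw [smul_mul_assoc]; exact Submodule.smul_mem _ _ ha

variable (g : Fin 8 → Uˣ) (hg : ∀ a, (g a : U) = 1 + e a) (htop : ∀ u : U, u ∈ W e 0)

include hg htop

theorem H_sub {h : Uˣ} (hh : h ∈ Subgroup.closure (Set.range g)) : (h : U) - 1 ∈ W e 1 := by
  induction hh using Subgroup.closure_induction with
  | mem h hh =>
    obtain ⟨a, rfl⟩ := hh
    rw [hg, add_sub_cancel_left]; exact e_mem e a
  | one => simp
  | mul a b _ _ ha hb =>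
    have : ((a * b : Uˣ) : U) - 1 = ((a : U) - 1) * b + ((b : U) - 1) := by
      rw [Units.val_mul]; noncomm_ring
    rw [this]
    have h1 : ((a : U) - 1) * b ∈ W e (1 + 0) := W_mul e ha (htop _)
    exact add_mem h1 hb
  | inv a _ ha =>
    have : ((a⁻¹ : Uˣ) : U) - 1 = -(((a⁻¹ : Uˣ) : U) * ((a : U) - 1)) := by
      rw [mul_sub, Units.inv_mul]; noncomm_ring
    rw [this]
    have := W_mul e (htop ((a⁻¹ : Uˣ) : U)) ha
    rw [zero_add] at this
    exact neg_mem this

omit hg htop in
/-- Leading terms of elements of the generated group. -/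
def S (n : ℕ) (r : U) : Prop :=
  r ∈ W e n ∧ ∃ h ∈ Subgroup.closure (Set.range g), (h : U) - 1 - r ∈ W e (n + 1)

omit hg htop in
theorem S_of_succ {n : ℕ} {r : U} (hr : r ∈ W e (n + 1)) : S e g n r :=
  ⟨W_mono e (by omega) hr, 1, one_mem _, by simpa using hr⟩

omit hg htop in
theorem S_add {n : ℕ} (hn : 1 ≤ n) {r s : U} (hr : S e g n r) (hs : S e g n s) :
    S e g n (r + s) := by
  obtain ⟨hr, a, ha, ha'⟩ := hr
  obtain ⟨hs, b, hb, hb'⟩ := hs
  refine ⟨add_mem hr hs, a * b, mul_mem ha hb, ?_⟩
  have h1 : (a : U) - 1 ∈ W e n := by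
    have := add_mem (W_mono e (Nat.le_succ n) ha') hr
    simpa using this
  have h2 : (b : U) - 1 ∈ W e n := by
    have := add_mem (W_mono e (Nat.le_succ n) hb') hs
    simpa using this
  have : ((a * b : Uˣ) : U) - 1 - (r + s) =
      ((a : U) - 1) * ((b : U) - 1) + (((a : U) - 1 - r) + ((b : U) - 1 - s)) := by
    rw [Units.val_mul]; noncomm_ring
  rw [this]
  exact add_mem (W_mono e (by omega) (W_mul e h1 h2)) (add_mem ha' hb')

theorem S_comm {n : ℕ} (a : Fin 8) {r : U} (hr : S e g n r) :
    S e g (n + 1) (e a * r - r * e a) := by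
  obtain ⟨hr, b, hb, hb'⟩ := hr
  have ha : g a ∈ Subgroup.closure (Set.range g) := Subgroup.subset_closure ⟨a, rfl⟩
  have m1 : ∀ {k : ℕ} {t : U}, t ∈ W e k → e a * t - t * e a ∈ W e (k + 1) := fun ht =>
    sub_mem (by simpa [add_comm] using W_mul e (e_mem e a) ht) (W_mul e ht (e_mem e a))
  refine ⟨m1 hr, g a * b * (b * g a)⁻¹, mul_mem (mul_mem ha hb) (inv_mem (mul_mem hb ha)), ?_⟩
  have hc := H_sub e g hg htop (inv_mem (mul_mem hb ha))
  set c : U := (((b * g a)⁻¹ : Uˣ) : U) with hcdef
  have h1 : (b : U) * (g a : U) * c = 1 := by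
    rw [hcdef, ← Units.val_mul, Units.mul_inv]
  obtain ⟨t, ht⟩ : ∃ t, t = (b : U) - 1 - r := ⟨_, rfl⟩
  have hbt : (b : U) = 1 + r + t := by rw [ht]; noncomm_ring
  rw [← ht] at hb'
  have : ((g a * b * (b * g a)⁻¹ : Uˣ) : U) - 1 - (e a * r - r * e a) =
      (e a * r - r * e a) * (c - 1) + (e a * t - t * e a) * c := by
    rw [Units.val_mul, Units.val_mul, ← hcdef]
    nth_rewrite 1 [← h1]
    rw [hg, hbt]; noncomm_ring
  rw [this]
  have h2 : (e a * t - t * e a) * c ∈ W e (n + 1 + 1 + 0) := W_mul e (m1 hb') (htop c)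
  exact add_mem (W_mul e (m1 hr) hc) h2

theorem S_all (hrot : ∀ w : List (Fin 8), 2 ≤ w.length → ∃ r, P e (w.rotate r) = 0) (n : ℕ) :
    ∀ r ∈ W e (n + 1), S e g (n + 1) r := by
  have two : ∀ u : U, u + u = 0 := fun u => by
    have : ((2 : ZMod 2)) = 0 := rfl
    rw [← two_smul (ZMod 2) u, this, zero_smul]
  have span : ∀ n, (∀ w : List (Fin 8), w.length = n + 1 → S e g (n + 1) (P e w)) →
      ∀ r ∈ W e (n + 1), S e g (n + 1) r := by
    intro n hw r hr
    induction hr using Submodule.span_induction with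
    | mem u hu =>
      obtain ⟨w, hw', rfl⟩ := hu
      rcases hw'.eq_or_lt with h | h
      · exact hw w h.symm
      · exact S_of_succ e g (P_mem e h)
    | zero => exact S_of_succ e g (zero_mem _)
    | add a b _ _ ha hb => exact S_add e g (by omega) ha hb
    | smul c a _ ha =>
      fin_cases c
      · have : ((0 : ZMod 2)) • a = 0 := zero_smul _ _
        exact (show S e g (n + 1) ((0 : ZMod 2) • a) from this ▸ S_of_succ e g (zero_mem _))
      · have : ((1 : ZMod 2)) • a = a := one_smul _ _
        exact (show S e g (n + 1) ((1 : ZMod 2) • a) from this.symm ▸ ha)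
  induction n with
  | zero =>
    refine span 0 fun w hw => ?_
    obtain ⟨a, rfl⟩ := List.length_eq_one_iff.1 hw
    refine ⟨P_mem e le_rfl, g a, Subgroup.subset_closure ⟨a, rfl⟩, ?_⟩
    simp [hg, P]
  | succ n ih =>
    refine span (n + 1) fun w hw => ?_
    have key : ∀ k (w : List (Fin 8)), w.length = n + 1 + 1 →
        S e g (n + 1 + 1) (P e (w.rotate k)) → S e g (n + 1 + 1) (P e w) := by
      intro k
      induction k with
      | zero => intro w _ h; simpa using h
      | succ k ihk =>
        intro w hw h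
        cases w with
        | nil => simp at hw
        | cons a v =>
          rw [List.rotate_cons_succ] at h
          have h1 := ihk _ (by simpa using hw) h
          have h2 := S_comm e g hg htop a (ih (P e v) (P_mem e (by simp at hw; omega)))
          have h3 := S_add e g (by omega) h2 h1
          rw [P_append] at h3
          have : P e [a] = e a := by simp [P]
          rw [this, sub_add_cancel] at h3
          rwa [P_cons]
    obtain ⟨k, hk⟩ := hrot w (by omega)
    exact key k w hw (hk ▸ S_of_succ e g (zero_mem _))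

theorem gen_all (hrot : ∀ w : List (Fin 8), 2 ≤ w.length → ∃ r, P e (w.rotate r) = 0) (M : ℕ)
    (hM : ∀ r ∈ W e (M + 1), r = 0) :
    ∀ r ∈ W e 1, ∃ h ∈ Subgroup.closure (Set.range g), (h : U) = 1 + r := by
  have key : ∀ k n, n + k = M → ∀ r ∈ W e (n + 1),
      ∃ h ∈ Subgroup.closure (Set.range g), (h : U) = 1 + r := by
    intro k
    induction k with
    | zero =>
      intro n hn r hr
      obtain rfl : n = M := hn
      exact ⟨1, Subgroup.one_mem _, by simp [hM r hr]⟩
    | succ k ih =>
      intro n hn r hr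
      obtain ⟨-, h, hh, ht⟩ := S_all e g hg htop hrot n r hr
      have := W_mul e (htop ((h⁻¹ : Uˣ) : U)) ht
      rw [zero_add] at this
      obtain ⟨h', hh', e'⟩ := ih (n + 1) (by omega) _ (neg_mem this)
      refine ⟨h * h', mul_mem hh hh', ?_⟩
      rw [Units.val_mul, e', mul_add, mul_neg, ← mul_assoc, Units.mul_inv]
      noncomm_ring
  exact key M 0 (by omega)

end abstract

end Pool.Agent.H.MP_d7a7a6_al
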