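import Pool.Agent.H.MP_d7a7a6_al.B

set_option autoImplicit false

namespace Pool.Agent.H.MP_d7a7a6_al

/-- The ambient algebra. -/
abbrev A : Type := Module.End (ZMod 2) (ℕ → ZMod 2)

/-- Truncated shift operators attached to letters. -/
def T (M : ℕ) (a : Fin 8) : A where
  toFun f i := if x i = a ∧ i < M then f (i + 1) else 0
  map_add' f g := by funext i; simp only [Pi.add_apply]; split_ifs <;> simp
  map_smul' c f := by funext i; simp only [Pi.smul_apply, RingHom.id_apply]; split_ifs <;> simp

open Classical in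
theorem P_T (M : ℕ) (w : List (Fin 8)) (f : ℕ → ZMod 2) (i : ℕ) (hi : i ≤ M) :
    P (T M) w f i = if Occ w i ∧ i + w.length ≤ M then f (i + w.length) else 0 := by
  induction w generalizing i with
  | nil => simp [P, Occ, hi]
  | cons a v ih =>
    rw [P_cons, Module.End.mul_apply]
    change (if x i = a ∧ i < M then P (T M) v f (i + 1) else 0) = _
    by_cases h : x i = a ∧ i < M
    · rw [if_pos h, ih (i + 1) (by omega)]
      have e1 : i + (a :: v).length = i + 1 + v.length := by simp; ring
      rw [e1]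
      simp only [Occ, h.1, true_and]
    · rw [if_neg h, if_neg]
      rintro ⟨⟨h1, -⟩, h2⟩
      exact h ⟨h1, by simp at h2; omega⟩

theorem P_T_big (M : ℕ) (w : List (Fin 8)) (hw : 1 ≤ w.length) (f : ℕ → ZMod 2) (i : ℕ)
    (hi : M ≤ i) : P (T M) w f i = 0 := by
  cases w with
  | nil => simp at hw
  | cons a v =>
    rw [P_cons, Module.End.mul_apply]
    change (if x i = a ∧ i < M then P (T M) v f (i + 1) else 0) = _
    rw [if_neg (by omega)]

theorem P_T_zero (M : ℕ) (w : List (Fin 8)) (hw : 1 ≤ w.length)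
    (h : ∀ i, ¬ (Occ w i ∧ i + w.length ≤ M)) : P (T M) w = 0 := by
  ext f i
  by_cases hi : i ≤ M
  · exact (P_T M w _ i hi).trans (if_neg (h i))
  · exact P_T_big M w hw _ i (by omega)

/-- The nilpotent algebra spanned by the nonempty words. -/
def R (M : ℕ) : NonUnitalSubalgebra (ZMod 2) A :=
  (W (T M) 1).toNonUnitalSubalgebra fun _ _ hu hv => W_mono _ (by omega) (W_mul _ hu hv)

theorem mem_R {M : ℕ} {u : A} : u ∈ R M ↔ u ∈ W (T M) 1 := Iff.rfl

theorem one_not_mem (M : ℕ) : (1 : A) ∉ R M := by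
  intro h
  have : ∀ u ∈ W (T M) 1, u 1 M = 0 := by
    intro u hu
    induction hu using Submodule.span_induction with
    | mem u hu =>
      obtain ⟨w, hw, rfl⟩ := hu
      exact P_T_big M w hw _ M le_rfl
    | zero => rfl
    | add a b _ _ ha hb => simp [ha, hb]
    | smul c a _ ha => simp [ha]
  have := this 1 h
  simp at this

/-- The unitization. -/
abbrev U (M : ℕ) : Type := Unitization (ZMod 2) (R M)

/-- The letters inside the unitization. -/
def ee (M : ℕ) (a : Fin 8) : U M := Unitization.inr (⟨T M a, e_mem _ a⟩ : R M)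

/-- The embedding of the unitization. -/
noncomputable def phi (M : ℕ) : U M →ₐ[ZMod 2] A :=
  NonUnitalSubalgebra.unitization (R M)

theorem phi_inj (M : ℕ) : Function.Injective (phi M) :=
  NonUnitalSubalgebra.unitization_injective (R M) (one_not_mem M)

theorem phi_inr (M : ℕ) (r : R M) : phi M (Unitization.inr r) = r := by
  simp [phi]

theorem phi_P (M : ℕ) (w : List (Fin 8)) : phi M (P (ee M) w) = P (T M) w := by
  induction w with
  | nil => simp [P]
  | cons a v ih => rw [P_cons, P_cons, map_mul, ih, ee, phi_inr]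

theorem inr_mem (M : ℕ) (r : R M) : (Unitization.inr r : U M) ∈ W (ee M) 1 := by
  have : ∀ u ∈ W (T M) 1, ∃ v ∈ W (ee M) 1, phi M v = u := by
    intro u hu
    induction hu using Submodule.span_induction with
    | mem u hu =>
      obtain ⟨w, hw, rfl⟩ := hu
      exact ⟨_, P_mem _ hw, phi_P M w⟩
    | zero => exact ⟨0, zero_mem _, map_zero _⟩
    | add a b _ _ ha hb =>
      obtain ⟨a', ha', rfl⟩ := ha
      obtain ⟨b', hb', rfl⟩ := hb
      exact ⟨a' + b', add_mem ha' hb', map_add _ _ _⟩
    | smul c a _ ha =>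
      obtain ⟨a', ha', rfl⟩ := ha
      exact ⟨c • a', Submodule.smul_mem _ _ ha', map_smul _ _ _⟩
  obtain ⟨v, hv, h⟩ := this r.1 r.2
  rwa [← phi_inj M (h.trans (phi_inr M r).symm)]

theorem top_mem (M : ℕ) (u : U M) : u ∈ W (ee M) 0 := by
  rw [← Unitization.inl_fst_add_inr_snd_eq u]
  refine add_mem ?_ (W_mono _ (by omega) (inr_mem M _))
  have : (Unitization.inl u.fst : U M) = u.fst • (1 : U M) := by
    rw [← Algebra.algebraMap_eq_smul_one]; rfl
  rw [this]
  exact Submodule.smul_mem _ _ (P_mem (ee M) (w := []) le_rfl)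

theorem W_big (M : ℕ) : ∀ r ∈ W (ee M) (M + 1), r = 0 := by
  intro r hr
  induction hr using Submodule.span_induction with
  | mem u hu =>
    obtain ⟨w, hw, rfl⟩ := hu
    apply phi_inj M
    rw [phi_P, map_zero]
    exact P_T_zero M w (by omega) fun i h => by omega
  | zero => rfl
  | add a b _ _ ha hb => simp [ha, hb]
  | smul c a _ ha => simp [ha]

theorem rot_zero (M : ℕ) (w : List (Fin 8)) (hw : 2 ≤ w.length) :
    ∃ r, P (ee M) (w.rotate r) = 0 := by
  obtain ⟨r, hr⟩ := exists_rotate w hw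
  refine ⟨r, phi_inj M ?_⟩
  rw [phi_P, map_zero]
  exact P_T_zero M _ (by simp; omega) fun i h => hr i h.1

theorem prod_mem (M : ℕ) (l : List (U M)) (h : ∀ u ∈ l, u ∈ W (ee M) 1) :
    l.prod ∈ W (ee M) l.length := by
  induction l with
  | nil => exact top_mem M _
  | cons a l ih =>
    rw [List.prod_cons, List.length_cons, add_comm]
    exact W_mul _ (h a List.mem_cons_self) (ih fun u hu => h u (List.mem_cons_of_mem _ hu))

theorem unit_ee (M : ℕ) (a : Fin 8) : IsUnit (1 + ee M a) := by
  suffices h : ee M a ^ (M + 1) ∈ W (ee M) (M + 1) from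
    IsNilpotent.isUnit_one_add (r := ee M a) ⟨M + 1, W_big M _ h⟩
  have := prod_mem M (List.replicate (M + 1) (ee M a)) fun u hu => by
    rw [List.eq_of_mem_replicate hu]; exact e_mem _ a
  simpa using this

theorem rank_ge (M : ℕ) : (M : Cardinal) ≤ Module.rank (ZMod 2) (R M) := by
  classical
  let pre : ℕ → List (Fin 8) := fun j => List.ofFn fun k : Fin j => x k
  have hlen : ∀ j, (pre j).length = j := fun j => by simp [pre]
  have hocc : ∀ j, Occ (pre j) 0 := fun j => (occ_iff _ _).2 fun k hk => by simp [pre]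
  let v : Fin M → R M := fun j => ⟨P (T M) (pre (j + 1)), P_mem _ (by rw [hlen]; omega)⟩
  let ev : R M →ₗ[ZMod 2] (Fin M → ZMod 2) :=
    { toFun := fun r j => r.1 (Pi.single (j + 1 : ℕ) 1) 0
      map_add' := fun _ _ => rfl
      map_smul' := fun _ _ => rfl }
  have h : ev ∘ v = Pi.basisFun (ZMod 2) (Fin M) := by
    funext j k
    change P (T M) (pre (j + 1)) (Pi.single (k + 1 : ℕ) 1) 0 = _
    rw [P_T M _ _ 0 (by omega), if_pos ⟨hocc _, by rw [hlen]; omega⟩, hlen, zero_add]
    simp [Pi.single_apply, Fin.ext_iff, eq_comm]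
  have hli : LinearIndependent (ZMod 2) v :=
    LinearIndependent.of_comp ev (h ▸ (Pi.basisFun (ZMod 2) (Fin M)).linearIndependent)
  simpa using hli.cardinal_le_rank

end Pool.Agent.H.MP_d7a7a6_al
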